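import Pool.Graph.R_seed8.Results.MP_42f001_co.PrimeFunctionality

/-!
# MP_42f001_co, Q1 with the bound `2 k + 2`

If the prime graphs of a hereditary class have functionality at most `k`, then all graphs of the
class have functionality at most `2 k + 2`.

The definitions (`funVertex`, `funGraph`, `IsModule`, `IsPrime`, `Hereditary`) are those of the
library module imported above, which proves the bound `3 k + 2`.

Idea. Let `M` be a minimal module with at least two vertices. Peel off `a`, then `b`, then `c`, each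
a function of at most `k` vertices of what is left. A function is harmless for the vertices outside
`M` if it has value `1` at the all-one pattern and `0` at the all-zero pattern; order the pairs of
values `(f(1...1), f(0...0))` by how harmless they are. If `y'` is at most as harmless as `y`, then adding
`y'` and its `k` vertices to those of `y` repairs `y`, so that two comparable vertices are enough.
The order has width two; if the worst type `(0,1)` comes first, the second vertex is chosen outside
the first set, otherwise at most one exceptional vertex has to be added.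
-/

namespace Pool.Agent.Results.MP_42f001_co.TwoKPlusTwo

open Finset Pool.Agent.Results.MP_42f001_co.PrimeFunctionality

variable {V : Type} [Fintype V] [DecidableEq V] {G : SimpleGraph V} {M : Finset V} {k : ℕ}

/-- value `0` at the all-one pattern is admissible -/
def NO (G : SimpleGraph V) (W : Finset V) (y : V) (S : Finset V) : Prop :=
  ∀ z ∈ W, z ∉ S → z ≠ y → (∀ t ∈ S, G.Adj t z) → ¬ G.Adj y z

/-- value `1` at the all-zero pattern is admissible -/
def NZ (G : SimpleGraph V) (W : Finset V) (y : V) (S : Finset V) : Prop :=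
  ∀ z ∈ W, z ∉ S → z ≠ y → (∀ t ∈ S, ¬ G.Adj t z) → G.Adj y z

omit [Fintype V] [DecidableEq V] in
theorem oo_or {W S : Finset V} {y : V} (h : FunIn G W y S) : OO G W y S ∨ NO G W y S := by
  obtain ⟨-, -, -, h⟩ := h
  refine or_iff_not_imp_right.2 fun hn => ?_
  unfold NO at hn
  push Not at hn
  obtain ⟨w, hw, hwS, hwy, hw1, hwa⟩ := hn
  intro z hz hzS hzy hz1
  exact (h z hz w hw hzS hwS hzy hwy fun s hs => iff_of_true (hz1 s hs) (hw1 s hs)).2 hwa

omit [Fintype V] [DecidableEq V] in
theorem zz_or {W S : Finset V} {y : V} (h : FunIn G W y S) : ZZ G W y S ∨ NZ G W y S := by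
  obtain ⟨-, -, -, h⟩ := h
  refine or_iff_not_imp_right.2 fun hn => ?_
  unfold NZ at hn
  push Not at hn
  obtain ⟨w, hw, hwS, hwy, hw1, hwa⟩ := hn
  intro z hz hzS hzy hz1 hadj
  exact hwa ((h z hz w hw hzS hwS hzy hwy fun s hs =>
    iff_of_false (hz1 s hs) (hw1 s hs)).1 hadj)

/-- One vertex with harmless values. -/
theorem single (hM : IsModule G (M : Set V)) {W S E : Finset V} {y : V} (h : FunIn G W y S)
    (hWM : W ⊆ M) (hEM : E ⊆ M) (hyE : y ∉ E) (hne : (S ∪ E).Nonempty)
    (hc : ∀ z ∈ M, z ∉ E → z ∈ W) (h1 : OO G W y S) (h0 : ZZ G W y S) :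
    FunIn G univ y (S ∪ E) := by
  obtain ⟨hy, hS, hyS, hf⟩ := h
  refine finish hM hne ⟨hWM hy, union_subset (hS.trans hWM) hEM, ?_, ?_⟩ ?_ ?_
  · simp [hyS, hyE]
  · intro z hz z' hz' hzT hz'T hzy hz'y hs
    simp only [mem_union, not_or] at hzT hz'T
    exact hf z (hc z hz hzT.2) z' (hc z' hz' hz'T.2) hzT.1 hz'T.1 hzy hz'y
      fun s hs' => hs s (mem_union_left _ hs')
  · intro z hz hzT hzy hs
    simp only [mem_union, not_or] at hzT
    exact h0 z (hc z hz hzT.2) hzT.1 hzy fun t ht => hs t (mem_union_left _ ht)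
  · intro z hz hzT hzy hs
    simp only [mem_union, not_or] at hzT
    exact h1 z (hc z hz hzT.2) hzT.1 hzy fun t ht => hs t (mem_union_left _ ht)

/-- Two vertices of which the first is at least as harmless as the second. -/
theorem pair (hM : IsModule G (M : Set V)) {W W' S S' E : Finset V} {y y' : V}
    (h : FunIn G W y S) (h' : FunIn G W' y' S') (hWM : W ⊆ M) (hWM' : W' ⊆ M) (hEM : E ⊆ M)
    (hyE : y ∉ E) (hyy : y ≠ y') (hyS' : y ∉ S')
    (hc : ∀ z ∈ M, z ≠ y → z ∉ insert y' (S ∪ S' ∪ E) → z ∈ W ∧ z ∈ W')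
    (h1 : OO G W y S ∨ NO G W' y' S') (h0 : ZZ G W y S ∨ NZ G W' y' S') :
    FunIn G univ y (insert y' (S ∪ S' ∪ E)) := by
  obtain ⟨hy, hS, hyS, hf⟩ := h
  obtain ⟨hy', hS', -, -⟩ := h'
  have hnot : ∀ {z}, z ∉ insert y' (S ∪ S' ∪ E) → z ≠ y' ∧ z ∉ S ∧ z ∉ S' := by
    intro z hz
    simp only [mem_insert, mem_union, not_or] at hz
    exact ⟨hz.1, hz.2.1.1, hz.2.1.2⟩
  refine finish hM ⟨y', mem_insert_self _ _⟩ ⟨hWM hy, ?_, ?_, ?_⟩ ?_ ?_
  · exact insert_subset (hWM' hy') (union_subset (union_subset (hS.trans hWM) (hS'.trans hWM')) hEM)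
  · simp [hyS, hyE, hyy, hyS']
  · intro z hz z' hz' hzT hz'T hzy hz'y hs
    exact hf z (hc z hz hzy hzT).1 z' (hc z' hz' hz'y hz'T).1 (hnot hzT).2.1 (hnot hz'T).2.1 hzy
      hz'y fun s hs' => hs s (by simp [hs'])
  · intro z hz hzT hzy hs
    rcases h0 with h0 | h0
    · exact h0 z (hc z hz hzy hzT).1 (hnot hzT).2.1 hzy fun t ht => hs t (by simp [ht])
    · exact absurd (h0 z (hc z hz hzy hzT).2 (hnot hzT).2.2 (hnot hzT).1
        fun t ht => hs t (by simp [ht])) (hs y' (mem_insert_self _ _))
  · intro z hz hzT hzy hs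
    rcases h1 with h1 | h1
    · exact h1 z (hc z hz hzy hzT).1 (hnot hzT).2.1 hzy fun t ht => hs t (by simp [ht])
    · exact absurd (hs y' (mem_insert_self _ _)) (h1 z (hc z hz hzy hzT).2 (hnot hzT).2.2
        (hnot hzT).1 fun t ht => hs t (by simp [ht]))

omit [Fintype V] in
theorem card_pair {S S' E : Finset V} {y' : V} {k : ℕ} (h : S.card ≤ k) (h' : S'.card ≤ k)
    (hE : E.card ≤ 1) : (insert y' (S ∪ S' ∪ E)).card ≤ 2 * k + 2 := by
  have h1 := card_insert_le y' (S ∪ S' ∪ E)
  have h2 := card_union_le (S ∪ S') E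
  have h3 := card_union_le S S'
  omega

theorem small' (hM : IsModule G (M : Set V)) (hM2 : 2 ≤ M.card) (hc : M.card ≤ 2 * k + 3) :
    ∃ y T, T.card ≤ 2 * k + 2 ∧ FunIn G univ y T := by
  obtain ⟨y, hy⟩ : M.Nonempty := card_pos.1 (by omega)
  have hcard : (M.erase y).card = M.card - 1 := card_erase_of_mem hy
  refine ⟨y, M.erase y, by omega, finish hM (card_pos.1 (by omega))
    ⟨hy, erase_subset _ _, by simp, ?_⟩ ?_ ?_⟩
  · intro z hz z' _ hzT _ hzy
    exact absurd (mem_erase.2 ⟨hzy, hz⟩) hzT
  · intro z hz hzT hzy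
    exact absurd (mem_erase.2 ⟨hzy, hz⟩) hzT
  · intro z hz hzT hzy
    exact absurd (mem_erase.2 ⟨hzy, hz⟩) hzT

/-- The main step: a minimal module contains a vertex which is a function of `2 k + 2` vertices. -/
theorem peel' (hM : IsModule G (M : Set V)) (hM2 : 2 ≤ M.card)
    (hk : ∀ W ⊆ M, W.Nonempty → ∃ y S, S.card ≤ k ∧ FunIn G W y S) :
    ∃ y T, T.card ≤ 2 * k + 2 ∧ FunIn G univ y T := by
  by_cases hsmall : M.card ≤ 2 * k + 3
  · exact small' hM hM2 hsmall
  have hne : ∀ D : Finset V, D.card ≤ 2 * k + 2 → (M \ D).Nonempty := by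
    intro D hc
    rw [sdiff_nonempty]
    intro h
    have := card_le_card h
    omega
  obtain ⟨a, A, cA, fA⟩ := hk M Subset.rfl (card_pos.1 (by omega))
  have hA0 : OO G M a A → ZZ G M a A → A.Nonempty := by
    intro h1 h0
    by_contra hA
    rw [not_nonempty_iff_eq_empty] at hA
    subst hA
    obtain ⟨w, hw⟩ := hne {a} (by simp)
    simp only [mem_sdiff, mem_singleton] at hw
    exact h0 w hw.1 (notMem_empty _) hw.2 (by simp) (h1 w hw.1 (notMem_empty _) hw.2 (by simp))
  -- worst type first
  by_cases hworst : NO G M a A ∧ NZ G M a A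
  · obtain ⟨b, B, cB, fB⟩ := hk (M \ insert a A) sdiff_subset
      (hne _ ((card_insert_le _ _).trans (by omega)))
    have hb := fB.1
    simp only [mem_sdiff, mem_insert, not_or] at hb
    refine ⟨b, _, card_pair (E := ∅) cB cA (by simp), pair hM fB fA sdiff_subset Subset.rfl
      (empty_subset _) (notMem_empty _) hb.2.1 hb.2.2 ?_ (Or.inr hworst.1) (Or.inr hworst.2)⟩
    intro z hz hzb hzT
    simp only [mem_insert, mem_union, not_or] at hzT
    refine ⟨mem_sdiff.2 ⟨hz, ?_⟩, hz⟩
    simp [hzT.1, hzT.2.1.2]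
  obtain ⟨b, B, cB, fB⟩ := hk (M \ {a}) sdiff_subset (hne _ (by simp))
  obtain ⟨c, C, cC, fC⟩ := hk (M \ {a, b}) sdiff_subset
    (hne _ (card_le_two.trans (by omega)))
  have ha := fA.1
  have hb := fB.1
  have hc := fC.1
  have hB := fB.2.1
  have hC := fC.2.1
  simp only [mem_sdiff, mem_insert, mem_singleton, not_or] at hb hc
  have haB : a ∉ B := fun h => by simpa using hB h
  have haC : a ∉ C := fun h => by simpa using hC h
  have hbC : b ∉ C := fun h => by simpa using hC h
  -- the harmless types
  have sA : OO G M a A → ZZ G M a A → ∃ y T, T.card ≤ 2 * k + 2 ∧ FunIn G univ y T := by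
    intro h1 h0
    refine ⟨a, A ∪ ∅, by rw [union_empty]; omega, single hM fA Subset.rfl (empty_subset _)
      (notMem_empty _) (by rw [union_empty]; exact hA0 h1 h0) (fun z hz _ => hz) h1 h0⟩
  have sB : OO G (M \ {a}) b B → ZZ G (M \ {a}) b B →
      ∃ y T, T.card ≤ 2 * k + 2 ∧ FunIn G univ y T := by
    intro h1 h0
    refine ⟨b, B ∪ {a}, (card_union_le _ _).trans (by simp; omega), single hM fB sdiff_subset
      (by simpa using ha) (by simpa using hb.2) ⟨a, by simp⟩ (fun z hz hza => by
        simpa [hz] using hza) h1 h0⟩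
  have sC : OO G (M \ {a, b}) c C → ZZ G (M \ {a, b}) c C →
      ∃ y T, T.card ≤ 2 * k + 2 ∧ FunIn G univ y T := by
    intro h1 h0
    by_cases hk0 : k = 0
    · -- `c` would be joined to everything and to nothing
      exfalso
      have hCe : C = ∅ := card_eq_zero.1 (by omega)
      subst hCe
      have hcard : ({a, b, c} : Finset V).card ≤ 3 := card_le_three
      obtain ⟨w, hw⟩ : (M \ {a, b, c}).Nonempty := by
        rw [sdiff_nonempty]
        intro h
        have := card_le_card h
        omega
      simp only [mem_sdiff, mem_insert, mem_singleton, not_or] at hw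
      have hw' : w ∈ M \ {a, b} := by simp [hw.1, hw.2.1, hw.2.2.1]
      exact h0 w hw' (notMem_empty _) hw.2.2.2 (by simp)
        (h1 w hw' (notMem_empty _) hw.2.2.2 (by simp))
    · have hcard : ({a, b} : Finset V).card ≤ 2 := card_le_two
      refine ⟨c, C ∪ {a, b}, (card_union_le _ _).trans (by omega), single hM fC sdiff_subset ?_
        (by simpa using hc.2) ⟨a, by simp⟩ (fun z hz hza => mem_sdiff.2 ⟨hz, hza⟩) h1 h0⟩
      intro z hz
      rcases mem_insert.1 hz with rfl | hz
      · exact ha
      · rw [mem_singleton.1 hz]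
        exact hb.1
  -- the pairs
  have pAB : (OO G M a A ∨ NO G (M \ {a}) b B) → (ZZ G M a A ∨ NZ G (M \ {a}) b B) →
      ∃ y T, T.card ≤ 2 * k + 2 ∧ FunIn G univ y T := by
    intro h1 h0
    refine ⟨a, _, card_pair (E := ∅) cA cB (by simp), pair hM fA fB Subset.rfl sdiff_subset
      (empty_subset _) (notMem_empty _) (fun h => hb.2 h.symm) haB ?_ h1 h0⟩
    intro z hz hza _
    exact ⟨hz, by simp [hz, hza]⟩
  have pAC : (OO G M a A ∨ NO G (M \ {a, b}) c C) → (ZZ G M a A ∨ NZ G (M \ {a, b}) c C) →
      ∃ y T, T.card ≤ 2 * k + 2 ∧ FunIn G univ y T := by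
    intro h1 h0
    refine ⟨a, _, card_pair (E := {b}) cA cC (by simp), pair hM fA fC Subset.rfl sdiff_subset
      (by simpa using hb.1) (by simpa using fun h : a = b => hb.2 h.symm)
      (fun h => hc.2.1 h.symm) haC ?_ h1 h0⟩
    intro z hz hza hzT
    simp only [mem_insert, mem_union, mem_singleton, not_or] at hzT
    exact ⟨hz, by simp [hz, hza, hzT.2.2]⟩
  have pBC : (OO G (M \ {a}) b B ∨ NO G (M \ {a, b}) c C) →
      (ZZ G (M \ {a}) b B ∨ NZ G (M \ {a, b}) c C) →
      ∃ y T, T.card ≤ 2 * k + 2 ∧ FunIn G univ y T := by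
    intro h1 h0
    refine ⟨b, _, card_pair (E := {a}) cB cC (by simp), pair hM fB fC sdiff_subset sdiff_subset
      (by simpa using ha) (by simpa using hb.2) (fun h => hc.2.2 h.symm) hbC ?_ h1 h0⟩
    intro z hz hzb hzT
    simp only [mem_insert, mem_union, mem_singleton, not_or] at hzT
    exact ⟨by simp [hz, hzT.2.2], by simp [hz, hzb, hzT.2.2]⟩
  have tA1 := oo_or fA
  have tA0 := zz_or fA
  have tB1 := oo_or fB
  have tB0 := zz_or fB
  have tC1 := oo_or fC
  have tC0 := zz_or fC
  rcases tA1 with tA1 | tA1 <;> rcases tA0 with tA0 | tA0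
  · exact sA tA1 tA0
  · rcases tB1 with tB1 | tB1 <;> rcases tB0 with tB0 | tB0
    · exact sB tB1 tB0
    · exact pAB (Or.inl tA1) (Or.inr tB0)
    · rcases tC0 with tC0 | tC0
      · rcases tC1 with tC1 | tC1
        · exact sC tC1 tC0
        · exact pBC (Or.inr tC1) (Or.inl tB0)
      · exact pAC (Or.inl tA1) (Or.inr tC0)
    · exact pAB (Or.inl tA1) (Or.inr tB0)
  · rcases tB1 with tB1 | tB1 <;> rcases tB0 with tB0 | tB0
    · exact sB tB1 tB0
    · rcases tC1 with tC1 | tC1
      · rcases tC0 with tC0 | tC0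
        · exact sC tC1 tC0
        · exact pBC (Or.inl tB1) (Or.inr tC0)
      · exact pAC (Or.inr tC1) (Or.inl tA0)
    · exact pAB (Or.inr tB1) (Or.inl tA0)
    · exact pAB (Or.inr tB1) (Or.inl tA0)
  · exact absurd ⟨tA1, tA0⟩ hworst

omit [Fintype V] [DecidableEq V] in
/-- Every nonempty member of the class has a vertex of small functionality. -/
theorem vertex' {X : ∀ V : Type, SimpleGraph V → Prop} (hX : Hereditary X) {k : ℕ}
    (hk : ∀ (V : Type) [Fintype V] (G : SimpleGraph V), X V G → IsPrime G → funGraph G ≤ k)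
    (V : Type) [Fintype V] [Nonempty V] (G : SimpleGraph V) (hG : X V G) :
    ∃ y, funVertex G y ≤ 2 * k + 2 := by
  classical
  by_cases hp : IsPrime G
  · have h1 := hk V G hG hp
    obtain ⟨y, S, hS, hf⟩ := funIn_of_funGraph (G := G) (Function.Embedding.refl V)
      (fun a b => Iff.rfl) h1 univ (by simp) univ_nonempty
    exact ⟨y, (funVertex_le _ _ _).2 ⟨S, by omega, hf⟩⟩
  · -- a minimal nontrivial module
    have hex : ∃ n : ℕ, ∃ M : Finset V, M.card = n ∧ IsModule G (M : Set V) ∧ 2 ≤ M.card ∧
        M ≠ univ := by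
      unfold IsPrime at hp
      push Not at hp
      obtain ⟨M, hM, hM0, hM1, hM2⟩ := hp
      refine ⟨_, M.toFinset, rfl, by simpa using hM, ?_, ?_⟩
      · by_contra hlt
        have : M.toFinset.card = 0 ∨ M.toFinset.card = 1 := by omega
        rcases this with h | h
        · rw [card_eq_zero, Set.toFinset_eq_empty] at h
          exact hM0.ne_empty h
        · obtain ⟨v, hv⟩ := card_eq_one.1 h
          apply hM2 v
          rw [← Set.coe_toFinset M, hv, coe_singleton]
      · intro h
        exact hM1 (by rwa [Set.toFinset_eq_univ] at h)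
    obtain ⟨M, hMc, hM, hM2, hMu⟩ := Nat.find_spec hex
    have hmin : ∀ N : Finset V, IsModule G (N : Set V) → 2 ≤ N.card → N ≠ univ →
        M.card ≤ N.card := by
      intro N h1 h2 h3
      rw [hMc]
      exact Nat.find_min' hex ⟨N, rfl, h1, h2, h3⟩
    -- the induced subgraph is prime
    have hprime : IsPrime (G.induce (M : Set V)) := by
      intro N hN
      by_contra hno
      push Not at hno
      obtain ⟨hN0, hN1, hN2⟩ := hno
      let N' : Finset V := N.toFinset.map (Function.Embedding.subtype _)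
      have hN'M : N' ⊆ M := by
        intro v hv
        obtain ⟨a, -, rfl⟩ := mem_map.1 hv
        exact a.2
      have hmem : ∀ a : (M : Set V), a ∈ N ↔ (a : V) ∈ N' := by
        intro a
        simp [N']
      have hN'card : 2 ≤ N'.card := by
        have hcc : N'.card = N.toFinset.card := card_map _
        rw [hcc]
        by_contra hlt
        have : N.toFinset.card = 0 ∨ N.toFinset.card = 1 := by omega
        rcases this with h | h
        · rw [card_eq_zero, Set.toFinset_eq_empty] at h
          exact hN0.ne_empty h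
        · obtain ⟨v, hv⟩ := card_eq_one.1 h
          apply hN2 v
          rw [← Set.coe_toFinset N, hv, coe_singleton]
      have hN'mod : IsModule G (N' : Set V) := by
        intro v hv
        by_cases hvM : v ∈ M
        · rcases hN ⟨v, hvM⟩ (fun h => hv (by simpa using (hmem _).1 h)) with h | h
          · left
            intro m hm
            have hm' : m ∈ M := hN'M (by simpa using hm)
            exact h ⟨m, hm'⟩ ((hmem _).2 (by simpa using hm))
          · right
            intro m hm
            have hm' : m ∈ M := hN'M (by simpa using hm)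
            exact h ⟨m, hm'⟩ ((hmem _).2 (by simpa using hm))
        · rcases hM v (by simpa using hvM) with h | h
          · left
            intro m hm
            exact h m (hN'M (by simpa using hm))
          · right
            intro m hm
            exact h m (hN'M (by simpa using hm))
      have hN'u : N' ≠ univ := by
        intro h
        apply hMu
        rw [eq_univ_iff_forall]
        intro v
        exact hN'M (h ▸ mem_univ v)
      have hle := hmin N' hN'mod hN'card hN'u
      have heq : N' = M := eq_of_subset_of_card_le hN'M hle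
      apply hN1
      ext a
      simp only [Set.mem_univ, iff_true]
      rw [hmem, heq]
      exact a.2
    have hXM : X _ (G.induce (M : Set V)) := hX _ _ G _ ⟨SimpleGraph.Embedding.induce _⟩ hG
    have hkM : funGraph (G.induce (M : Set V)) ≤ k := hk _ _ hXM hprime
    obtain ⟨y, T, hT, hf⟩ := peel' hM hM2 (fun W hW hne =>
      funIn_of_funGraph (G := G) (H := G.induce (M : Set V)) (Function.Embedding.subtype _)
        (fun a b => Iff.rfl) hkM W (fun w hw => by
          simp only [mem_map, mem_univ, true_and]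
          exact ⟨⟨w, hW hw⟩, rfl⟩) hne)
    exact ⟨y, (funVertex_le _ _ _).2 ⟨T, hT, hf⟩⟩


omit [Fintype V] [DecidableEq V] in
theorem isPrime_iso {W W' : Type} {H : SimpleGraph W} {H' : SimpleGraph W'} (e : H ≃g H')
    (h : IsPrime H) : IsPrime H' := by
  intro M hM
  have hN : IsModule H (e ⁻¹' M) := by
    intro v hv
    rcases hM (e v) hv with h1 | h1
    · exact Or.inl fun m hm => e.map_adj_iff.1 (h1 _ hm)
    · exact Or.inr fun m hm hadj => h1 _ hm (e.map_adj_iff.2 hadj)
  rcases h _ hN with h1 | h1 | ⟨v, h1⟩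
  · left
    ext x
    have : e.symm x ∈ e ⁻¹' M ↔ e.symm x ∈ (∅ : Set W) := by rw [h1]
    simpa using this
  · right; left
    ext x
    have : e.symm x ∈ e ⁻¹' M ↔ e.symm x ∈ (Set.univ : Set W) := by rw [h1]
    simpa using this
  · right; right
    refine ⟨e v, ?_⟩
    ext x
    have : e.symm x ∈ e ⁻¹' M ↔ e.symm x ∈ ({v} : Set W) := by rw [h1]
    simp only [Set.mem_preimage, RelIso.apply_symm_apply, Set.mem_singleton_iff] at this
    rw [this, Set.mem_singleton_iff]
    exact ⟨fun h => by rw [← h]; simp, fun h => by rw [h]; simp⟩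

omit [Fintype V] [DecidableEq V] in
theorem funGraph_iso {W W' : Type} [Fintype W] [Fintype W'] {H : SimpleGraph W}
    {H' : SimpleGraph W'} (e : H ≃g H') {k : ℕ} (h : funGraph H' ≤ k) : funGraph H ≤ k := by
  classical
  rw [funGraph_le] at h ⊢
  intro S hS
  obtain ⟨y, hy⟩ := h (e '' S) (hS.image _)
  obtain ⟨T, hT, hf⟩ := (funVertex_le _ _ _).1 hy
  let ψ : S ≃ e '' S := e.toEquiv.image S
  have h1 := hf.map (G := H.induce S) ψ.symm.toEmbedding (fun a b => by
    obtain ⟨a, rfl⟩ := ψ.surjective a
    obtain ⟨b, rfl⟩ := ψ.surjective b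
    simp only [Equiv.coe_toEmbedding, Equiv.symm_apply_apply, SimpleGraph.comap_adj,
      Function.Embedding.subtype_apply]
    exact e.map_adj_iff)
  rw [Finset.map_univ_equiv] at h1
  exact ⟨_, (funVertex_le _ _ _).2 ⟨_, by rw [card_map]; exact hT, h1⟩⟩

/-- **Answer to Q1 with the bound `2 k + 2`.** If the prime graphs of a hereditary class have
functionality at most `k`, then all graphs of the class have functionality at most `2 k + 2`. The
second part is the same statement for a single graph: if all prime induced subgraphs of a finite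
graph `G` have functionality at most `k`, then `G` has functionality at most `2 k + 2`. -/
theorem result :
    (∀ X : ∀ V : Type, SimpleGraph V → Prop, Hereditary X →
      ∀ k : ℕ, (∀ (V : Type) [Fintype V] (G : SimpleGraph V), X V G → IsPrime G →
        funGraph G ≤ k) →
      ∀ (V : Type) [Fintype V] (G : SimpleGraph V), X V G → funGraph G ≤ 2 * k + 2) ∧
    ∀ (V : Type) [Fintype V] (G : SimpleGraph V) (k : ℕ),
      (∀ M : Set V, IsPrime (G.induce M) → funGraph (G.induce M) ≤ k) →
      funGraph G ≤ 2 * k + 2 := by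
  have main : ∀ X : ∀ V : Type, SimpleGraph V → Prop, Hereditary X →
      ∀ k : ℕ, (∀ (V : Type) [Fintype V] (G : SimpleGraph V), X V G → IsPrime G →
        funGraph G ≤ k) →
      ∀ (V : Type) [Fintype V] (G : SimpleGraph V), X V G → funGraph G ≤ 2 * k + 2 := by
    intro X hX k hk V _ G hG
    rw [funGraph_le]
    intro S hS
    have : Nonempty S := hS.to_subtype
    have : Fintype S := Fintype.ofFinite S
    exact vertex' hX hk S (G.induce S) (hX _ _ G _ ⟨SimpleGraph.Embedding.induce _⟩ hG)
  refine ⟨main, fun V _ G k hk => ?_⟩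
  refine main (fun W H => Nonempty (H ↪g G)) (fun V W G H ⟨e⟩ ⟨f⟩ => ⟨f.comp e⟩) k ?_ V G
    ⟨RelEmbedding.refl _⟩
  rintro W _ H ⟨e⟩ hH
  have iso : H ≃g G.induce (Set.range e) :=
    { toEquiv := Equiv.ofInjective e e.injective
      map_rel_iff' := by
        intro a b
        simp [SimpleGraph.comap_adj] }
  have : Fintype (Set.range e) := Fintype.ofFinite _
  exact funGraph_iso iso (hk _ (isPrime_iso iso hH))

end Pool.Agent.Results.MP_42f001_co.TwoKPlusTwo
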